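import Mathlib

namespace Pool.Agent.Results.MP_75a6b7_co.E7
open Matrix Finset

/-- A quantum `c`-colouring in some finite dimension `d ≥ 1`. -/
def QColorable {V : Type} (G : SimpleGraph V) (c : ℕ) : Prop :=
  ∃ d : ℕ, 1 ≤ d ∧ ∃ P : V → Fin c → Matrix (Fin d) (Fin d) ℂ,
    (∀ v i, (P v i).IsHermitian ∧ P v i * P v i = P v i) ∧ (∀ v, ∑ i, P v i = 1) ∧
      ∀ v w, G.Adj v w → ∀ i, P v i * P w i = 0

def tab : List ℕ := [8796093014016, 8998411751399168, 567585623825964672, 4099270590856936832, 6569787740491578240,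
  7878244116561065856, 8546220831521238912, 9214364846189707388, 8655777875699679354,
  5124094592781361270, 2653582409051103342, 1345130742269534302, 677156849016758334,
  8647051885133438585, 5117090952820301173, 2651657945874701165, 1348021830785177437,
  682930238545203005, 4682634221574135027, 2536393854324792043, 1534217471505127131,
  1046455179018358459, 2031374367961856487, 3047057149330634199, 3568594235627777463,
  5298002908181590991, 5929316884688497583, 7219441891581683615, 576328673733386631,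
  4106287922636407435, 6571715964985181331, 7875347373720668323, 8540436150523662531,
  4540744436443218701, 6686979863255663893, 7689151588041148709, 8176911161730650437,
  7191998026191414809, 6176310947576719913, 5654771864058835529, 3925362696494935089,
  3294049196743947345, 2003926077546494049, 4547510813820484622, 6688693426357582358,
  7686102324469642790, 8171085047183584838, 7192358313817856282, 6172277483659416874,
  5648699699425332554, 3918780856682255154, 3287959457104300882, 1999769588586186594,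
  7210091309825988764, 5915150132698322092, 5267441819312295116, 3502057177820582580,
  2906701560885627604, 1742642124885640932, 475761494053761464, 384315973153401304,
  228816322568955368, 64159792587105264]

def vs : List (List ℤ) := [[2, -2, 0, 0, 0, 0, 0, 0], [2, 0, -2, 0, 0, 0, 0, 0], [2, 0, 0, -2, 0, 0, 0, 0], [2, 0, 0, 0, -2,
  0, 0, 0], [2, 0, 0, 0, 0, -2, 0, 0], [2, 0, 0, 0, 0, 0, -2, 0], [2, 0, 0, 0, 0, 0, 0, -2], [0, 2,
  -2, 0, 0, 0, 0, 0], [0, 2, 0, -2, 0, 0, 0, 0], [0, 2, 0, 0, -2, 0, 0, 0], [0, 2, 0, 0, 0, -2, 0,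
  0], [0, 2, 0, 0, 0, 0, -2, 0], [0, 2, 0, 0, 0, 0, 0, -2], [0, 0, 2, -2, 0, 0, 0, 0], [0, 0, 2, 0,
  -2, 0, 0, 0], [0, 0, 2, 0, 0, -2, 0, 0], [0, 0, 2, 0, 0, 0, -2, 0], [0, 0, 2, 0, 0, 0, 0, -2], [0,
  0, 0, 2, -2, 0, 0, 0], [0, 0, 0, 2, 0, -2, 0, 0], [0, 0, 0, 2, 0, 0, -2, 0], [0, 0, 0, 2, 0, 0, 0,
  -2], [0, 0, 0, 0, 2, -2, 0, 0], [0, 0, 0, 0, 2, 0, -2, 0], [0, 0, 0, 0, 2, 0, 0, -2], [0, 0, 0, 0,
  0, 2, -2, 0], [0, 0, 0, 0, 0, 2, 0, -2], [0, 0, 0, 0, 0, 0, 2, -2], [1, 1, 1, 1, -1, -1, -1, -1],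
  [1, 1, 1, -1, 1, -1, -1, -1], [1, 1, 1, -1, -1, 1, -1, -1], [1, 1, 1, -1, -1, -1, 1, -1], [1, 1,
  1, -1, -1, -1, -1, 1], [1, 1, -1, 1, 1, -1, -1, -1], [1, 1, -1, 1, -1, 1, -1, -1], [1, 1, -1, 1,
  -1, -1, 1, -1], [1, 1, -1, 1, -1, -1, -1, 1], [1, 1, -1, -1, 1, 1, -1, -1], [1, 1, -1, -1, 1, -1,
  1, -1], [1, 1, -1, -1, 1, -1, -1, 1], [1, 1, -1, -1, -1, 1, 1, -1], [1, 1, -1, -1, -1, 1, -1, 1],
  [1, 1, -1, -1, -1, -1, 1, 1], [1, -1, 1, 1, 1, -1, -1, -1], [1, -1, 1, 1, -1, 1, -1, -1], [1, -1,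
  1, 1, -1, -1, 1, -1], [1, -1, 1, 1, -1, -1, -1, 1], [1, -1, 1, -1, 1, 1, -1, -1], [1, -1, 1, -1,
  1, -1, 1, -1], [1, -1, 1, -1, 1, -1, -1, 1], [1, -1, 1, -1, -1, 1, 1, -1], [1, -1, 1, -1, -1, 1,
  -1, 1], [1, -1, 1, -1, -1, -1, 1, 1], [1, -1, -1, 1, 1, 1, -1, -1], [1, -1, -1, 1, 1, -1, 1, -1],
  [1, -1, -1, 1, 1, -1, -1, 1], [1, -1, -1, 1, -1, 1, 1, -1], [1, -1, -1, 1, -1, 1, -1, 1], [1, -1,
  -1, 1, -1, -1, 1, 1], [1, -1, -1, -1, 1, 1, 1, -1], [1, -1, -1, -1, 1, 1, -1, 1], [1, -1, -1, -1,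
  1, -1, 1, 1], [1, -1, -1, -1, -1, 1, 1, 1]]

def adj (v w : Fin 63) : Bool := (tab.getD v 0).testBit w

def G : SimpleGraph (Fin 63) where
  Adj v w := adj v w = true
  symm := ⟨by decide +kernel⟩
  loopless := ⟨by decide +kernel⟩

def x (v : Fin 63) (a : Fin 8) : ℤ := (vs.getD v []).getD a 0

def oc (v : Fin 8 → ℂ) : Fin 8 → Fin 8 → ℂ :=
  ![![v 0, v 1, v 2, v 3, v 4, v 5, v 6, v 7],
    ![-v 1, v 0, -v 3, v 2, -v 5, v 4, v 7, -v 6],
    ![-v 2, v 3, v 0, -v 1, -v 6, -v 7, v 4, v 5],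
    ![-v 3, -v 2, v 1, v 0, -v 7, v 6, -v 5, v 4],
    ![-v 4, v 5, v 6, v 7, v 0, -v 1, -v 2, -v 3],
    ![-v 5, -v 4, v 7, -v 6, v 1, v 0, v 3, -v 2],
    ![-v 6, -v 7, -v 4, v 5, v 2, -v 3, v 0, v 1],
    ![-v 7, v 6, -v 5, -v 4, v 3, v 2, -v 1, v 0]]

theorem oc_dot (v w : Fin 8 → ℂ) (i) : oc v i ⬝ᵥ oc w i = v ⬝ᵥ w := by
  fin_cases i <;> simp [oc, dotProduct, Fin.sum_univ_eight] <;> ring

theorem oc_sum (v : Fin 8 → ℂ) (a b) : ∑ i, oc v i a * oc v i b = if a = b then v ⬝ᵥ v else 0 := by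
  fin_cases a <;> fin_cases b <;> simp [oc, dotProduct, Fin.sum_univ_eight] <;> ring

theorem oc_star (v : Fin 8 → ℤ) (i a) : star (oc (fun a => v a) i a) = oc (fun a => v a) i a := by
  fin_cases i <;> fin_cases a <;> simp [oc]

def go : ℕ → List (Fin 63) → Bool
  | 0, _ => true
  | k + 1, l => List.rec false (fun y r ih => go k (r.filter fun z => !adj y z) || ih) l

theorem go_ok (k : ℕ) : ∀ (l : List (Fin 63)) (S : Finset (Fin 63)), k ≤ S.card →
    (∀ y ∈ S, y ∈ l) → (∀ y ∈ S, ∀ z ∈ S, adj y z = false) → go k l = true := by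
  induction k with
  | zero => exact fun _ _ _ _ _ => rfl
  | succ k ih =>
    intro l
    induction l with
    | nil =>
      intro S h h1 _
      obtain ⟨y, hy⟩ := card_pos.1 (show 0 < S.card by omega)
      cases h1 y hy
    | cons y r ih' =>
      intro S h h1 h2
      refine Bool.or_eq_true_iff.2 ?_
      by_cases hy : y ∈ S
      · exact .inl (ih _ (S.erase y) (by rw [card_erase_of_mem hy]; omega) (by grind) (by grind))
      · exact .inr (ih' S h (by grind) h2)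

theorem h1 : ∀ v w, adj v w = true → (univ.filter fun z => adj v z && adj w z).card = 13 := by
  decide +kernel

theorem h2 : ∀ v w, v ≠ w → ¬ adj v w = true →
    (univ.filter fun z => adj v z && adj w z).card = 15 := by
  decide +kernel

theorem h0 : ∀ v, (univ.filter fun z => adj v z = true).card = 30 := by
  decide +kernel

theorem result : ∃ (V : Type) (_ : Fintype V) (G : SimpleGraph V) (_ : DecidableRel G.Adj),
    G.IsSRGWith 63 30 13 15 ∧ QColorable G 8 ∧ ¬ G.Colorable 8 := by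
  let _ : DecidableRel G.Adj := fun v w => inferInstanceAs (Decidable (adj v w = true))
  have cn : ∀ v w, Fintype.card (G.commonNeighbors v w) =
      (univ.filter fun z => adj v z && adj w z).card := fun v w =>
    Fintype.card_of_subtype _ (by simp [SimpleGraph.mem_commonNeighbors, G])
  have d : ∀ v w, (fun a => (x v a : ℂ)) ⬝ᵥ (fun a => (x w a : ℂ)) = (x v ⬝ᵥ x w : ℤ) := by
    simp [dotProduct]
  have d8 : ∀ v, x v ⬝ᵥ x v = 8 := by decide +kernel
  have d0 : ∀ v w, adj v w = true → x v ⬝ᵥ x w = 0 := by decide +kernel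
  have pr : ∀ v w i, vecMulVec (oc (fun a => x v a) i) (oc (fun a => x v a) i) *
      vecMulVec (oc (fun a => x w a) i) (oc (fun a => x w a) i) =
      ((x v ⬝ᵥ x w : ℤ) : ℂ) • vecMulVec (oc (fun a => x v a) i) (oc (fun a => x w a) i) := by
    intro v w i
    rw [vecMulVec_mul_vecMulVec, oc_dot, d, vecMulVec_smul]
  refine ⟨Fin 63, inferInstance, G, inferInstance, ⟨rfl, fun v => ?_, ?_, ?_⟩, ⟨8, by norm_num,
    fun v i => (1 / 8 : ℂ) • vecMulVec (oc (fun a => x v a) i) (oc (fun a => x v a) i),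
    fun v i => ⟨?_, ?_⟩, fun v => ?_, fun v w h i => ?_⟩, fun ⟨c⟩ => ?_⟩
  · rw [← SimpleGraph.card_neighborFinset_eq_degree, SimpleGraph.neighborFinset_eq_filter]
    exact h0 v
  · exact fun v w h => (cn v w).trans (h1 v w h)
  · exact fun v w h h' => (cn v w).trans (h2 v w h h')
  · ext a b
    simp [vecMulVec_apply, mul_comm, ← Complex.star_def, oc_star]
  · rw [smul_mul_smul_comm, pr, d8, smul_smul]
    norm_num
  · ext a b
    simp only [Matrix.sum_apply, Matrix.smul_apply, vecMulVec_apply, smul_eq_mul, ← mul_sum, oc_sum, d, d8,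
      Matrix.one_apply]
    split_ifs <;> norm_num
  · rw [smul_mul_smul_comm, pr, d0 v w h]
    simp
  · obtain ⟨i, -, hi⟩ := exists_lt_card_fiber_of_mul_lt_card_of_maps_to (s := univ) (t := univ)
      (f := c) (n := 7) (by simp) (by simp)
    exact absurd (go_ok 8 (List.finRange 63) _ hi (by simp) fun y hy z hz => Bool.eq_false_iff.2
      fun h => c.valid h ((mem_filter.1 hy).2.trans (mem_filter.1 hz).2.symm)) (by decide +kernel)

end Pool.Agent.Results.MP_75a6b7_co.E7
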